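import Pool.Agent.Helper30.Full.GoalsG
import Pool.Agent.Helper31.ProC.Quo

/-!
# Torsion-free nilpotent pro-p groups (packet NT)
-/

set_option autoImplicit false

namespace Pool.Agent.Helper41.Full

open Pool.Agent.Helper30.Full Pool.Agent.Helper85.ProP Pool.Agent.Helper30.ProP
  Pool.Agent.Helper85.ProC

universe u

/-- the centre of a torsion-free nilpotent group is isolated -/
theorem center_isolated {G : Type u} [Group G] [hn : Group.IsNilpotent G]
    (tf : ∀ (g : G) (n : ℕ), 0 < n → g ^ n = 1 → g = 1) (x : G) (n : ℕ) (h0 : 0 < n)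
    (hx : x ^ n ∈ Subgroup.center G) : x ∈ Subgroup.center G := by
  have key : ∀ i : ℕ, ∀ y ∈ Subgroup.upperCentralSeries G i, x * y = y * x := by
    intro i
    induction i with
    | zero =>
      intro y hy
      rw [Subgroup.upperCentralSeries_zero, Subgroup.mem_bot] at hy
      rw [hy, mul_one, one_mul]
    | succ i ih =>
      intro y hy
      rw [Subgroup.mem_upperCentralSeries_succ_iff] at hy
      set c := y * x * y⁻¹ * x⁻¹ with hc
      have h1 : c ∈ Subgroup.upperCentralSeries G i := hy x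
      have h2 : x * c = c * x := ih c h1
      have h3 : y * x * y⁻¹ = c * x := by rw [hc]; group
      have h4 : (y * x * y⁻¹) ^ n = x ^ n := by
        rw [conj_pow]
        rw [Subgroup.mem_center_iff] at hx
        rw [hx y]; group
      have h5 : (c * x) ^ n = c ^ n * x ^ n := by
        have : Commute c x := h2.symm
        exact this.mul_pow n
      rw [h3, h5] at h4
      have h6 : c ^ n = 1 := by
        have := mul_right_cancel (b := x ^ n) (a := c ^ n) (c := 1) (by rw [h4, one_mul])
        exact this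
      have h7 := tf c n h0 h6
      rw [h7, one_mul] at h3
      calc x * y = (y * x * y⁻¹) * y := by rw [h3]
        _ = y * x := by group
  obtain ⟨m, hm⟩ := hn.nilpotent
  rw [Subgroup.mem_center_iff]
  intro y
  exact (key m y (by rw [hm]; trivial)).symm

lemma closed_center {G : Type u} [Group G] [TopologicalSpace G] [IsTopologicalGroup G]
    [T2Space G] : IsClosed (Subgroup.center G : Set G) := by
  have h : (Subgroup.center G : Set G) = ⋂ g : G, {z : G | g * z = z * g} := by
    ext z
    simp only [SetLike.mem_coe, Subgroup.mem_center_iff, Set.mem_iInter, Set.mem_ofPred_eq]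
  rw [h]
  exact isClosed_iInter fun g => isClosed_eq (by fun_prop) (by fun_prop)

/-- the `n`-th powers of the elements of a central subgroup -/
def powS {G : Type u} [Group G] (Z : Subgroup G) (hZ : Z ≤ Subgroup.center G) (n : ℕ) :
    Subgroup G where
  carrier := (fun z : G => z ^ n) '' (Z : Set G)
  one_mem' := ⟨1, Z.one_mem, one_pow _⟩
  mul_mem' := by
    rintro _ _ ⟨a, ha, rfl⟩ ⟨b, hb, rfl⟩
    refine ⟨a * b, Z.mul_mem ha hb, ?_⟩
    have : Commute a b := (Subgroup.mem_center_iff.1 (hZ ha) b).symm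
    exact this.mul_pow n
  inv_mem' := by
    rintro _ ⟨a, ha, rfl⟩
    exact ⟨a⁻¹, Z.inv_mem ha, inv_pow _ _⟩

lemma mem_powS {G : Type u} [Group G] {Z : Subgroup G} {hZ : Z ≤ Subgroup.center G} {n : ℕ}
    {x : G} : x ∈ powS Z hZ n ↔ ∃ z ∈ Z, z ^ n = x := Iff.rfl

lemma closed_powS {G : Type u} [Group G] [TopologicalSpace G] [IsTopologicalGroup G]
    [CompactSpace G] [T2Space G] {Z : Subgroup G} (hZ : Z ≤ Subgroup.center G) (n : ℕ)
    (hc : IsClosed (Z : Set G)) : IsClosed (powS Z hZ n : Set G) :=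
  (hc.isCompact.image (continuous_pow n)).isClosed

/-- the centre is finitely generated -/
theorem center_fg (p : ℕ) [Fact p.Prime] {G : Type u} [Group G] [TopologicalSpace G]
    [IsTopologicalGroup G] [CompactSpace G] [T2Space G]
    (tf : ∀ (g : G) (n : ℕ), 0 < n → g ^ n = 1 → g = 1) (N : Subgroup G)
    (hp : ∀ h : G, h ^ p ∈ N)
    (hN : ∀ K : Subgroup G, IsClosed (K : Set G) → K ≤ N → FGmod ⊥ K) :
    FGmod ⊥ (Subgroup.center G) := by
  classical
  have hcl : IsClosed (Subgroup.center G : Set G) := closed_center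
  obtain ⟨F, hF, hF'⟩ := hN (powS (Subgroup.center G) le_rfl p) (closed_powS le_rfl p hcl) (by
    rintro _ ⟨z, -, rfl⟩
    exact hp z)
  have hroot : ∀ f ∈ F, ∃ z ∈ Subgroup.center G, z ^ p = f := fun f hf => hF hf
  choose! r hr1 hr2 using hroot
  refine ⟨F.image r, ?_, ?_⟩
  · rw [Finset.coe_image]
    rintro _ ⟨f, hf, rfl⟩
    exact hr1 f hf
  · intro H hH _ hFH z hz
    have h1 : IsClosed ((H ⊓ Subgroup.center G : Subgroup G) : Set G) := by
      rw [Subgroup.coe_inf]
      exact hH.inter hcl
    have h2 := hF' (powS (H ⊓ Subgroup.center G) inf_le_right p) (closed_powS _ p h1) bot_le (by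
      intro f hf
      refine ⟨r f, ⟨hFH ?_, hr1 f hf⟩, hr2 f hf⟩
      rw [Finset.coe_image]
      exact ⟨f, hf, rfl⟩)
    have h3 : z ^ p ∈ powS (Subgroup.center G) le_rfl p := ⟨z, hz, rfl⟩
    obtain ⟨h, ⟨hh1, hh2⟩, hh3⟩ := h2 h3
    have h4 : Commute z h⁻¹ := by
      have h5 : Commute z h := Subgroup.mem_center_iff.1 hh2 z
      exact h5.inv_right
    have h6 : (z * h⁻¹) ^ p = 1 := by
      rw [h4.mul_pow, inv_pow]
      have : h ^ p = z ^ p := hh3
      rw [this, mul_inv_cancel]
    have h7 := tf _ p (Fact.out : p.Prime).pos h6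
    have h8 : z = h := mul_inv_eq_one.1 h7
    rw [h8]
    exact hh1

/-- the inductive step -/
theorem fgg_of_quot {G : Type u} [Group G] [TopologicalSpace G]
    [IsTopologicalGroup G] [CompactSpace G] [T2Space G] (Z : Subgroup G) [Z.Normal]
    (hZ : IsClosed (Z : Set G)) (h1 : FGmod ⊥ Z) (h2 : FGG (G ⧸ Z)) : FGG G := by
  classical
  have : IsClosed (Z : Set G) := hZ
  have hT3 : T3Space (G ⧸ Z) := inferInstance
  have hT2 : T2Space (G ⧸ Z) := inferInstance
  obtain ⟨F, hF, hF'⟩ := h1
  obtain ⟨S, hS⟩ := h2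
  have hl : ∀ s : G ⧸ Z, ∃ g : G, (g : G ⧸ Z) = s := fun s => QuotientGroup.mk_surjective s
  choose lift hlift using hl
  refine ⟨F ∪ S.image lift, ?_⟩
  set T := (Subgroup.closure ((F ∪ S.image lift : Finset G) : Set G)).topologicalClosure with hT
  have hTc : IsClosed (T : Set G) := Subgroup.isClosed_topologicalClosure _
  have hsub : ((F ∪ S.image lift : Finset G) : Set G) ⊆ (T : Set G) :=
    Subgroup.subset_closure.trans (Subgroup.le_topologicalClosure _)
  rw [Finset.coe_union, Finset.coe_image] at hsub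
  have hZT : Z ≤ T := hF' T hTc bot_le (Set.subset_union_left.trans hsub)
  rw [eq_top_iff]
  intro g _
  have hmc : IsClosed ((T.map (QuotientGroup.mk' Z) : Subgroup (G ⧸ Z)) : Set (G ⧸ Z)) := by
    rw [Subgroup.coe_map]
    exact (hTc.isCompact.image QuotientGroup.continuous_mk).isClosed
  have hmS : (Subgroup.closure (S : Set (G ⧸ Z))).topologicalClosure ≤
      T.map (QuotientGroup.mk' Z) := by
    refine Subgroup.topologicalClosure_minimal _ ?_ hmc
    rw [Subgroup.closure_le]
    intro s hs
    refine ⟨lift s, hsub (Or.inr ⟨s, hs, rfl⟩), ?_⟩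
    exact hlift s
  rw [hS] at hmS
  obtain ⟨t, ht, e⟩ := hmS (Subgroup.mem_top (g : G ⧸ Z))
  have h3 : t⁻¹ * g ∈ Z := by
    rw [← QuotientGroup.eq]
    exact e
  have h4 : g = t * (t⁻¹ * g) := by group
  rw [h4]
  exact T.mul_mem ht (hZT h3)

/-- closed subgroups of the quotient -/
theorem quot_hyp {G : Type u} [Group G] [TopologicalSpace G]
    [IsTopologicalGroup G] [CompactSpace G] [T2Space G] (Z : Subgroup G) [Z.Normal]
    (N : Subgroup G) (hNc : IsClosed (N : Set G))
    (hN : ∀ K : Subgroup G, IsClosed (K : Set G) → K ≤ N → FGmod ⊥ K)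
    (K : Subgroup (G ⧸ Z)) (hK : IsClosed (K : Set (G ⧸ Z)))
    (hKN : K ≤ N.map (QuotientGroup.mk' Z)) : FGmod ⊥ K := by
  classical
  obtain ⟨F, hF, hF'⟩ := hN (N ⊓ K.comap (QuotientGroup.mk' Z)) (by
    rw [Subgroup.coe_inf, Subgroup.coe_comap]
    exact hNc.inter (hK.preimage QuotientGroup.continuous_mk)) inf_le_left
  refine ⟨F.image (QuotientGroup.mk' Z), ?_, ?_⟩
  · rw [Finset.coe_image]
    rintro _ ⟨f, hf, rfl⟩
    exact (hF hf).2
  · intro H hH _ hFH k hk
    have h1 := hF' (H.comap (QuotientGroup.mk' Z)) (by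
      rw [Subgroup.coe_comap]
      exact hH.preimage QuotientGroup.continuous_mk) bot_le (by
      rw [Finset.coe_image, Set.image_subset_iff] at hFH
      exact hFH)
    obtain ⟨n, hn, rfl⟩ := hKN hk
    exact h1 ⟨hn, hk⟩

/-- packet NT -/
theorem stmtNT : StmtNT.{u} := by
  intro p _ H _ _ _ _ _ _ hPP hnil
  revert hPP
  have main : ∀ (H : Type u) [Group H] [Group.IsNilpotent H], ∀ [TopologicalSpace H]
      [IsTopologicalGroup H] [CompactSpace H] [T2Space H] [TotallyDisconnectedSpace H], PP p H →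
      (∀ (g : H) (n : ℕ), 0 < n → g ^ n = 1 → g = 1) →
      ∀ N : Subgroup H, N.Normal → IsClosed (N : Set H) → (∀ h : H, h ^ p ∈ N) →
      (∀ K : Subgroup H, IsClosed (K : Set H) → K ≤ N → FGmod ⊥ K) → FGG H := by
    intro H _ hH
    refine Group.nilpotent_center_quotient_ind (P := fun H _ _ => ∀ [TopologicalSpace H]
      [IsTopologicalGroup H] [CompactSpace H] [T2Space H] [TotallyDisconnectedSpace H], PP p H →
      (∀ (g : H) (n : ℕ), 0 < n → g ^ n = 1 → g = 1) →
      ∀ N : Subgroup H, N.Normal → IsClosed (N : Set H) → (∀ h : H, h ^ p ∈ N) →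
      (∀ K : Subgroup H, IsClosed (K : Set H) → K ≤ N → FGmod ⊥ K) → FGG H) H ?_ ?_
    · intro G _ _ _ _ _ _ _ _ _ _ _ _ _ _
      exact ⟨∅, Subsingleton.elim _ _⟩
    · intro G _ hG ih _ _ _ _ _ hPP tf N hNn hNc hNp hN
      have hcl : IsClosed (Subgroup.center G : Set G) := closed_center
      have : IsClosed (Subgroup.center G : Set G) := hcl
      have hT3 : T3Space (G ⧸ Subgroup.center G) := inferInstance
      have hT2 : T2Space (G ⧸ Subgroup.center G) := inferInstance
      have hTD := Pool.Agent.Helper31.ProC.totallyDisconnected_quotient (Subgroup.center G) hcl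
      refine fgg_of_quot (Subgroup.center G) hcl (center_fg p tf N hNp hN) ?_
      refine ih ?_ ?_ (N.map (QuotientGroup.mk' (Subgroup.center G)))
        (hNn.map _ (QuotientGroup.mk'_surjective _)) ?_ ?_
        (quot_hyp (Subgroup.center G) N hNc hN)
      · intro U hU hUo
        have hsurj := QuotientGroup.mk'_surjective (Subgroup.center G)
        have hcomapN : (U.comap (QuotientGroup.mk' (Subgroup.center G))).Normal := hU.comap _
        have hcomapO : IsOpen ((U.comap (QuotientGroup.mk' (Subgroup.center G)) :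
            Subgroup G) : Set G) := by
          rw [Subgroup.coe_comap]
          exact hUo.preimage QuotientGroup.continuous_mk
        obtain ⟨n, hn⟩ := hPP _ hcomapN hcomapO
        exact ⟨n, by rw [← hn, Subgroup.index_comap_of_surjective U hsurj]⟩
      · intro g n hn hg
        obtain ⟨x, rfl⟩ := QuotientGroup.mk_surjective g
        rw [← QuotientGroup.mk_pow, QuotientGroup.eq_one_iff] at hg
        rw [QuotientGroup.eq_one_iff]
        exact center_isolated tf x n hn hg
      · rw [Subgroup.coe_map]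
        exact (hNc.isCompact.image QuotientGroup.continuous_mk).isClosed
      · intro g
        obtain ⟨x, rfl⟩ := QuotientGroup.mk_surjective g
        exact ⟨x ^ p, hNp x, rfl⟩
  exact fun h1 h2 => main H h1 h2

end Pool.Agent.Helper41.Full
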