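import Pool.Agent.Helper30.Full.GoalsM

/-!
# Transition from configurations to faithful modules (packet TR)
-/

set_option autoImplicit false
set_option linter.unusedSectionVars false

namespace Pool.Agent.Helper41.Full

open Pool.Agent.Helper30.Full

universe u

noncomputable section

section

variable {p : ℕ} [Fact p.Prime] {d : ℕ} {M : Type u} [AddCommGroup M] [TopologicalSpace M]
  [IsTopologicalAddGroup M] [CompactSpace M] [T2Space M] {b : Act p d M} (c : VC b)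

/-- `X2` as a subgroup of `X1` -/
abbrev Y2 : AddSubgroup c.X1 := c.X2.addSubgroupOf c.X1

/-- the section `X1 / X2` -/
abbrev QX : Type u := c.X1 ⧸ Y2 c

instance instCompX1 : CompactSpace c.X1 := isCompact_iff_compactSpace.1 c.c1.isCompact

instance instClosedY2 : IsClosed (Y2 c : Set c.X1) := c.c2.preimage continuous_subtype_val

lemma Y2_inv : ∀ k, ∀ y ∈ Y2 c, (b.sub c.X1 c.i1).σ k y ∈ Y2 c := fun k _ hy => c.i2 k _ hy

/-- the action on the section -/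
def bq : Act p d (QX c) := (b.sub c.X1 c.i1).quot (Y2 c) (Y2_inv c)

/-- the projection -/
def pr (x : M) (hx : x ∈ c.X1) : QX c := ((⟨x, hx⟩ : c.X1) : QX c)

lemma pr_surj (q : QX c) : ∃ x, ∃ hx : x ∈ c.X1, pr c x hx = q := by
  obtain ⟨⟨x, hx⟩, rfl⟩ := QuotientAddGroup.mk_surjective q
  exact ⟨x, hx, rfl⟩

lemma pr_zero {x : M} (hx : x ∈ c.X1) : pr c x hx = 0 ↔ x ∈ c.X2 := by
  unfold pr
  rw [QuotientAddGroup.eq_zero_iff]
  rfl

lemma pr_sub {x y : M} (hx : x ∈ c.X1) (hy : y ∈ c.X1) :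
    pr c x hx - pr c y hy = pr c (x - y) (c.X1.sub_mem hx hy) := rfl

lemma pr_nsmul (n : ℕ) {x : M} (hx : x ∈ c.X1) :
    n • pr c x hx = pr c (n • x) (c.X1.nsmul_mem hx n) := rfl

lemma pr_eq {x y : M} (hx : x ∈ c.X1) (hy : y ∈ c.X1) :
    pr c x hx = pr c y hy ↔ x - y ∈ c.X2 := by
  rw [← sub_eq_zero, pr_sub, pr_zero]

lemma Tp_mem (k : Fin d → ℤ_[p]) (n : ℕ) {x : M} (hx : x ∈ c.X1) : (b.T k ^ n) x ∈ c.X1 :=
  Tpow_mem b c.X1 k (fun _ hy => T_in_X1 c k hy) n x hx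

lemma bq_σ (k : Fin d → ℤ_[p]) {x : M} (hx : x ∈ c.X1) :
    (bq c).σ k (pr c x hx) = pr c (b.σ k x) (c.i1 k x hx) := rfl

lemma bq_T (k : Fin d → ℤ_[p]) {x : M} (hx : x ∈ c.X1) :
    (bq c).T k (pr c x hx) = pr c (b.T k x) (T_in_X1 c k hx) := rfl

lemma bq_Tpow (k : Fin d → ℤ_[p]) (n : ℕ) {x : M} (hx : x ∈ c.X1) :
    ((bq c).T k ^ n) (pr c x hx) = pr c ((b.T k ^ n) x) (Tp_mem c k n hx) := by
  induction n with
  | zero => rfl
  | succ n ih =>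
    have h1 : ((bq c).T k ^ (n + 1)) (pr c x hx) = (bq c).T k (((bq c).T k ^ n) (pr c x hx)) := by
      rw [pow_succ']; rfl
    have h2 : (b.T k ^ (n + 1)) x = b.T k ((b.T k ^ n) x) := by rw [pow_succ']; rfl
    rw [h1, ih, bq_T]
    rw [pr_eq, h2, sub_self]
    exact c.X2.zero_mem

lemma bq_triv (k : Fin d → ℤ_[p]) : (bq c).σ k = 1 ↔ cTriv c k := by
  constructor
  · intro h x hx
    have h1 : (bq c).σ k (pr c x hx) = pr c x hx := by rw [h]; rfl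
    rw [bq_σ, pr_eq] at h1
    exact h1
  · intro h
    refine AddMonoidHom.ext fun q => ?_
    obtain ⟨x, hx, rfl⟩ := pr_surj c q
    show (bq c).σ k (pr c x hx) = pr c x hx
    rw [bq_σ, pr_eq]
    exact h x hx

/-- `∃` over the section -/
lemma ex_pr {P : QX c → Prop} : (∃ q, P q) ↔ ∃ x, ∃ hx : x ∈ c.X1, P (pr c x hx) := by
  constructor
  · rintro ⟨q, hq⟩
    obtain ⟨x, hx, rfl⟩ := pr_surj c q
    exact ⟨x, hx, hq⟩
  · rintro ⟨x, hx, h⟩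
    exact ⟨_, h⟩

/-- `∀` over the section -/
lemma all_pr {P : QX c → Prop} : (∀ q, P q) ↔ ∀ x, ∀ hx : x ∈ c.X1, P (pr c x hx) := by
  constructor
  · intro h x hx
    exact h _
  · intro h q
    obtain ⟨x, hx, rfl⟩ := pr_surj c q
    exact h x hx

lemma bq_small (k : Fin d → ℤ_[p]) : Small (bq c) k ↔ cSmall c k := by
  unfold Helper30.Full.Small cSmall
  refine exists_congr fun i => exists_congr fun n => ?_
  rw [all_pr]
  refine forall_congr' fun x => forall_congr' fun hx => ?_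
  rw [ex_pr]
  constructor
  · rintro ⟨y, hy, h⟩
    rw [pr_nsmul, bq_Tpow, pr_nsmul, pr_eq] at h
    exact ⟨y, hy, h⟩
  · rintro ⟨y, hy, h⟩
    refine ⟨y, hy, ?_⟩
    rw [pr_nsmul, bq_Tpow, pr_nsmul, pr_eq]
    exact h

/-- the trivial elements of `S` -/
def NS : Submodule ℤ_[p] c.S := (subm b c.X1 c.X2 c.c2 c.i2).comap c.S.subtype

lemma mem_NS (k : c.S) : k ∈ NS c ↔ cTriv c (k : Fin d → ℤ_[p]) := Iff.rfl

lemma exists_coord (tf : ∀ k ∈ c.S, cTriv c (p • k) → cTriv c k) :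
    ∃ (r : ℕ) (φ : c.S →ₗ[ℤ_[p]] (Fin r → ℤ_[p])) (ψ : (Fin r → ℤ_[p]) →ₗ[ℤ_[p]] c.S),
      (∀ a, φ (ψ a) = a) ∧ ∀ k, φ k = 0 ↔ cTriv c (k : Fin d → ℤ_[p]) := by
  have htf : Module.IsTorsionFree ℤ_[p] (c.S ⧸ NS c) := by
    refine Module.IsTorsionFree.of_smul_eq_zero fun r m h => ?_
    by_cases hr : r = 0
    · exact Or.inl hr
    right
    obtain ⟨k, rfl⟩ := Submodule.Quotient.mk_surjective _ m
    rw [← Submodule.Quotient.mk_smul, Submodule.Quotient.mk_eq_zero] at h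
    rw [Submodule.Quotient.mk_eq_zero]
    have h1 : ((p : ℤ_[p]) ^ r.valuation) • k ∈ NS c := by
      have h2 := (NS c).smul_mem (((PadicInt.unitCoeff hr)⁻¹ : ℤ_[p]ˣ) : ℤ_[p]) h
      rw [smul_smul] at h2
      have h3 : (((PadicInt.unitCoeff hr)⁻¹ : ℤ_[p]ˣ) : ℤ_[p]) * r = (p : ℤ_[p]) ^ r.valuation := by
        have h3' := congrArg (fun x => (((PadicInt.unitCoeff hr)⁻¹ : ℤ_[p]ˣ) : ℤ_[p]) * x)
          (PadicInt.unitCoeff_spec hr)
        refine h3'.trans ?_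
        show _ * (_ * _) = _
        rw [← mul_assoc, Units.inv_mul, one_mul]
      rwa [h3] at h2
    have h4 : ∀ n : ℕ, ((p : ℤ_[p]) ^ n) • k ∈ NS c → k ∈ NS c := by
      intro n
      induction n with
      | zero => intro h; simpa using h
      | succ n ih =>
        intro h
        apply ih
        rw [pow_succ', ← smul_smul, mem_NS] at h
        rw [mem_NS]
        refine tf _ (Subtype.mem _) ?_
        have h5 : (((p : ℤ_[p]) • ((p : ℤ_[p]) ^ n • k) : c.S) : Fin d → ℤ_[p]) =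
            p • (((p : ℤ_[p]) ^ n • k : c.S) : Fin d → ℤ_[p]) := by
          rw [Submodule.coe_smul, Nat.cast_smul_eq_nsmul]
        rwa [h5] at h
    exact h4 _ h1
  have hfree : Module.Free ℤ_[p] (c.S ⧸ NS c) := Module.free_of_finite_type_torsion_free'
  let e := (Module.finBasis ℤ_[p] (c.S ⧸ NS c)).equivFun
  let φ : c.S →ₗ[ℤ_[p]] (Fin (Module.finrank ℤ_[p] (c.S ⧸ NS c)) → ℤ_[p]) :=
    e.toLinearMap ∘ₗ (NS c).mkQ
  have hφ : Function.Surjective φ := e.surjective.comp (Submodule.mkQ_surjective _)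
  obtain ⟨ψ, hψ⟩ := Module.projective_lifting_property φ LinearMap.id hφ
  refine ⟨_, φ, ψ, fun a => congrArg (fun f : _ →ₗ[ℤ_[p]] _ => f a) hψ, fun k => ?_⟩
  show e ((NS c).mkQ k) = 0 ↔ _
  rw [LinearEquiv.map_eq_zero_iff, Submodule.mkQ_apply, Submodule.Quotient.mk_eq_zero, mem_NS]

section
variable {r : ℕ} {φ : c.S →ₗ[ℤ_[p]] (Fin r → ℤ_[p])} {ψ : (Fin r → ℤ_[p]) →ₗ[ℤ_[p]] c.S}

/-- the faithful action -/
def bf (ψ : (Fin r → ℤ_[p]) →ₗ[ℤ_[p]] c.S) : Act p r (QX c) := (bq c).pull (c.S.subtype ∘ₗ ψ)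

lemma bf_σ (a : Fin r → ℤ_[p]) : (bf c ψ).σ a = (bq c).σ (ψ a) := rfl

lemma bf_T (a : Fin r → ℤ_[p]) : (bf c ψ).T a = (bq c).T (ψ a) := rfl

variable (h1 : ∀ a, φ (ψ a) = a) (h2 : ∀ k, φ k = 0 ↔ cTriv c (k : Fin d → ℤ_[p]))

include h1 h2

lemma σ_φ (k : c.S) : (bf c ψ).σ (φ k) = (bq c).σ k := by
  rw [bf_σ]
  have h3 : φ (k - ψ (φ k)) = 0 := by rw [map_sub, h1, sub_self]
  rw [h2, ← bq_triv] at h3
  have h4 : (k : Fin d → ℤ_[p]) = ((k - ψ (φ k) : c.S) : Fin d → ℤ_[p]) + (ψ (φ k)) := by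
    rw [Submodule.coe_sub, sub_add_cancel]
  conv_rhs => rw [h4, (bq c).add, h3, one_mul]

lemma T_φ (k : c.S) : (bf c ψ).T (φ k) = (bq c).T k := by
  unfold Act.T
  rw [σ_φ c h1 h2]

lemma triv_ψ (a : Fin r → ℤ_[p]) (ha : cTriv c (ψ a : Fin d → ℤ_[p])) : a = 0 := by
  rw [← h2, h1] at ha
  exact ha

lemma faith_bf (a : Fin r → ℤ_[p]) (ha : (bf c ψ).σ a = 1) : a = 0 := by
  rw [bf_σ, bq_triv] at ha
  exact triv_ψ c h1 h2 a ha

omit h1 h2 in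
lemma ψ_pow (m : ℕ) (a : Fin r → ℤ_[p]) : ((ψ (p ^ m • a) : c.S) : Fin d → ℤ_[p]) =
    p ^ m • (ψ a : Fin d → ℤ_[p]) := by
  rw [map_nsmul]; rfl

omit h1 h2 in
lemma bf_small (a : Fin r → ℤ_[p]) : Small (bf c ψ) a ↔ cSmall c (ψ a : Fin d → ℤ_[p]) := by
  rw [← bq_small]
  unfold Helper30.Full.Small
  rw [bf_T]

lemma small_φ (k : c.S) : Small (bf c ψ) (φ k) ↔ cSmall c (k : Fin d → ℤ_[p]) := by
  rw [← bq_small]
  unfold Helper30.Full.Small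
  rw [T_φ c h1 h2]

lemma hypE (H : HypEs c) : HypE (bf c ψ) where
  kill := by
    rw [all_pr]
    intro x hx
    rw [pr_nsmul, pr_zero]
    exact H.kill x hx
  faith := faith_bf c h1 h2
  pos := by
    obtain ⟨k, hk, hk'⟩ := H.ex
    rcases Nat.eq_zero_or_pos r with h0 | h0
    · subst h0
      exact absurd ((h2 ⟨k, hk⟩).1 (Subsingleton.elim _ _)) hk'
    · exact h0
  dom := by
    intro u hu
    obtain ⟨m, hm⟩ := H.dom (ψ u) (ψ u).2 (fun h => hu (triv_ψ c h1 h2 u h))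
    refine ⟨m, fun k => ⟨?_, ?_⟩⟩
    · rw [all_pr]
      intro x hx
      obtain ⟨y, hy, h⟩ := (hm (ψ k) (ψ k).2).1 x hx
      refine ⟨pr c y hy, ?_⟩
      rw [bf_T, bf_T, bq_T, bq_T, pr_eq, ψ_pow]
      exact h
    · rw [all_pr]
      intro x hx
      rw [bf_T, bf_T, bq_T, bq_T, pr_zero, pr_zero, ψ_pow]
      exact (hm (ψ k) (ψ k).2).2 x hx
  unb := by
    intro u hu n
    obtain ⟨x, hx, h3, h4⟩ := H.unb (ψ u) (ψ u).2 (fun h => hu (triv_ψ c h1 h2 u h)) n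
    refine ⟨pr c x hx, ?_, ?_⟩
    · rw [bf_T, bq_Tpow, pr_zero]
      exact h3
    · rw [bf_T, bq_Tpow, Ne, pr_zero]
      exact h4

lemma hypW (H : HypWs c) : HypW (bf c ψ) where
  faith := faith_bf c h1 h2
  big := by
    obtain ⟨g, hg, hg'⟩ := H.big
    exact ⟨φ ⟨g, hg⟩, by rw [small_φ c h1 h2]; exact hg'⟩
  dom := by
    intro u hu
    rw [bf_small] at hu
    obtain ⟨m, hm⟩ := H.dom (ψ u) (ψ u).2 hu
    refine ⟨m, fun k => ?_⟩
    rw [all_pr]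
    intro x hx
    obtain ⟨y, hy, h⟩ := hm (ψ k) (ψ k).2 x hx
    refine ⟨pr c y hy, ?_⟩
    rw [bf_T, bf_T, bq_T, bq_T, pr_eq, ψ_pow]
    exact h
  sm2 := by
    intro h hh
    rw [bf_small] at hh
    rw [all_pr]
    intro x hx
    obtain ⟨y, hy, h3⟩ := H.sm2 (ψ h) (ψ h).2 hh x hx
    refine ⟨pr c y hy, ?_⟩
    rw [bf_T, bq_T, pr_nsmul, pr_eq]
    exact h3
  quo := by
    intro h hh g
    obtain ⟨i, n, hin⟩ := H.quo (ψ h) (ψ h).2 (fun h3 => hh (triv_ψ c h1 h2 h h3)) (ψ g) (ψ g).2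
    refine ⟨i, n, ?_⟩
    rw [all_pr]
    intro x hx
    obtain ⟨y, hy, z, hz, h3⟩ := hin x hx
    refine ⟨pr c y hy, pr c z hz, ?_⟩
    rw [bf_T, bf_T, pr_nsmul, bq_Tpow, pr_nsmul, bq_T, ← sub_eq_iff_eq_add', pr_sub, pr_eq]
    exact h3
  bdd := by
    intro g i
    obtain ⟨n, hn⟩ := H.bdd (ψ g) (ψ g).2 i
    refine ⟨n, ?_⟩
    rw [all_pr]
    intro x hx h
    rw [ex_pr] at h
    obtain ⟨y, hy, h⟩ := h
    rw [bf_T, pr_nsmul, bq_Tpow, pr_nsmul, pr_eq] at h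
    obtain ⟨z, hz, h3⟩ := hn x hx ⟨y, hy, h⟩
    refine ⟨pr c z hz, ?_⟩
    rw [bf_T, pr_nsmul, bq_Tpow, pr_nsmul, pr_eq]
    exact h3

end

end

section eng

variable {p : ℕ} [Fact p.Prime] {d : ℕ} {X : Type u} [AddCommGroup X] [TopologicalSpace X]
  (b : Act p d X)

/-- the full configuration -/
def cfull : Cf (carM b) where
  S _ := True
  X1 _ := True
  X2 x := x = (0 : X)

lemma iter_pA (t : ℕ) (h : Fin d → ℤ_[p]) : (carM b).pA^[t] h = p ^ t • h := by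
  induction t with
  | zero => simp
  | succ t ih =>
    rw [Function.iterate_succ_apply', ih]
    show p • (p ^ t • h) = _
    rw [pow_succ', mul_smul]

lemma full_Le0 (u k : Fin d → ℤ_[p]) : cLe0 (cfull b) u k ↔ Le0 b u k := by
  unfold cLe0 Le0 cfull
  simp only [true_and, forall_true_left, sub_eq_zero]

lemma full_Le1 (u k : Fin d → ℤ_[p]) : cLe1 (cfull b) u k ↔ Le1 b u k := by
  unfold cLe1 Le1 cfull
  simp only [true_and, forall_true_left, sub_eq_iff_eq_add', add_zero]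

lemma full_Sm1 (k : Fin d → ℤ_[p]) : cSm1 (cfull b) k ↔ Sm1 b k := by
  unfold cSm1 Sm1 cfull
  simp only [true_and, forall_true_left, sub_eq_zero]

lemma full_DD (l k : Fin d → ℤ_[p]) (x : X) : cDD (cfull b) l k x ↔ DD b l k x := by
  unfold cDD DD cfull
  simp only [true_and, sub_eq_iff_eq_add', add_zero]

lemma full_II (u₀ u₁ l : Fin d → ℤ_[p]) (yT : X) (k : Fin d → ℤ_[p]) :
    cII (cfull b) u₀ u₁ l yT k ↔ II b u₀ u₁ l yT k := by
  unfold cII II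
  rw [full_Le0, full_Le1, full_Sm1, full_DD]
  exact ⟨fun h => h.2, fun h => ⟨trivial, h⟩⟩

lemma full_Bf (t : ℕ) (h k : Fin d → ℤ_[p]) : cBf (cfull b) t h k ↔ Bf b t h k := by
  unfold cBf Bf
  rw [full_Le1, iter_pA]

lemma full_RR (t : ℕ) (u₀ u₁ l : Fin d → ℤ_[p]) (yT yV x : X) (k h : Fin d → ℤ_[p]) :
    cRR (cfull b) t u₀ u₁ l yT yV x k h ↔ RR b t u₀ u₁ l yT yV x k h := by
  unfold cRR RR
  simp only [full_II, full_Bf, full_DD]

lemma full_Eng (h : Eng b) : ∃ t : ℕ, 1 ≤ t ∧ EngC (cfull b) (fun _ => True) (fun _ => True) t := by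
  obtain ⟨t, ht, h⟩ := h
  refine ⟨t, ht, fun w => ?_⟩
  obtain ⟨u₀, u₁, l, yT, yV, ν, q1, q2, q3, q4⟩ := h w
  refine ⟨u₀, u₁, l, yT, yV, ν, trivial, trivial, trivial, trivial, trivial, ?_, ?_, ?_, ?_⟩
  · intro k hk
    exact q1 k ((full_II b _ _ _ _ _).1 hk)
  · intro n hn
    obtain ⟨k, hk, e⟩ := q2 n hn
    exact ⟨k, (full_II b _ _ _ _ _).2 hk, e⟩
  · intro h k hh hk
    rw [full_Bf]
    exact q3 h k ((full_II b _ _ _ _ _).1 hh) ((full_II b _ _ _ _ _).1 hk)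
  · intro f hf
    obtain ⟨x, hx⟩ := q4 f hf
    refine ⟨x, trivial, fun k h hk hh hν => ?_⟩
    rw [full_RR]
    exact hx k h ((full_II b _ _ _ _ _).1 hk) ((full_II b _ _ _ _ _).1 hh) hν

end eng

section

variable {p : ℕ} [Fact p.Prime] {d : ℕ} {M : Type u} [AddCommGroup M] [TopologicalSpace M]
  [IsTopologicalAddGroup M] [CompactSpace M] [T2Space M] {b : Act p d M} (c : VC b)
  {r : ℕ} {φ : c.S →ₗ[ℤ_[p]] (Fin r → ℤ_[p])} {ψ : (Fin r → ℤ_[p]) →ₗ[ℤ_[p]] c.S}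
  (h1 : ∀ a, φ (ψ a) = a) (h2 : ∀ k, φ k = 0 ↔ cTriv c (k : Fin d → ℤ_[p]))

/-- the relation between the acting elements -/
def RA (φ : c.S →ₗ[ℤ_[p]] (Fin r → ℤ_[p])) (k : Fin d → ℤ_[p]) (a : Fin r → ℤ_[p]) : Prop :=
  ∃ h : k ∈ c.S, φ ⟨k, h⟩ = a

/-- the relation between the vectors -/
def RX (x : M) (q : QX c) : Prop := ∃ h : x ∈ c.X1, pr c x h = q

include h1 h2 in
lemma cmatch : CMatch (carM b) (carM (bf c ψ)) (RA c φ) (RX c) where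
  act := by
    rintro a a' x x' ⟨ha, rfl⟩ ⟨hx, rfl⟩
    refine ⟨c.i1 a x hx, ?_⟩
    show _ = (bf c ψ).σ (φ ⟨a, ha⟩) (pr c x hx)
    rw [σ_φ c h1 h2]
    rfl
  T := by
    rintro a a' x x' ⟨ha, rfl⟩ ⟨hx, rfl⟩
    refine ⟨T_in_X1 c a hx, ?_⟩
    show _ = (bf c ψ).T (φ ⟨a, ha⟩) (pr c x hx)
    rw [T_φ c h1 h2]
    rfl
  sub := by
    rintro x x' y y' ⟨hx, rfl⟩ ⟨hy, rfl⟩
    exact ⟨c.X1.sub_mem hx hy, rfl⟩
  pX := by
    rintro x x' ⟨hx, rfl⟩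
    exact ⟨c.X1.nsmul_mem hx p, rfl⟩
  pA := by
    rintro a a' ⟨ha, rfl⟩
    refine ⟨c.S.nsmul_mem ha p, ?_⟩
    show φ ⟨p • a, _⟩ = p • φ ⟨a, ha⟩
    rw [← map_nsmul]
    rfl

include h1 in
lemma cfmatch : CfMatch (C := carM b) (C' := carM (bf c ψ)) (RA c φ) (RX c) c.cf
    (cfull (bf c ψ)) where
  S1 := fun a ha => ⟨φ ⟨a, ha⟩, ⟨ha, rfl⟩, trivial⟩
  S2 := fun a' _ => ⟨(ψ a' : Fin d → ℤ_[p]), ⟨(ψ a').2, h1 a'⟩, (ψ a').2⟩
  X1a := fun x hx => ⟨pr c x hx, hx, rfl⟩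
  X1b := fun x' _ => pr_surj c x'
  X1 := by
    rintro x x' ⟨hx, rfl⟩
    exact ⟨fun _ => trivial, fun _ => hx⟩
  X2 := by
    rintro x x' ⟨hx, rfl⟩
    exact (pr_zero c hx).symm

end

/-- the packet TR -/
theorem stmtTR : StmtTR.{u} := by
  intro p _ hE hW d M _ _ _ _ _ b c hc
  have tf : ∀ k ∈ c.S, cTriv c (p • k) → cTriv c k := by
    rcases hc with h | h
    · exact h.tf
    · exact h.tf
  obtain ⟨r, φ, ψ, h1, h2⟩ := exists_coord c tf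
  have hEng : Eng (bf c ψ) := by
    rcases hc with h | h
    · exact hE r (QX c) (bf c ψ) (hypE c h1 h2 h)
    · exact hW r (QX c) (bf c ψ) (hypW c h1 h2 h)
  obtain ⟨t, ht, he⟩ := full_Eng _ hEng
  refine ⟨t, ht, ?_⟩
  refine match_Eng (cmatch c h1 h2) (cfmatch c h1) ?_ ?_ he
  · intro a' _
    exact ⟨(ψ a' : Fin d → ℤ_[p]), ⟨(ψ a').2, h1 a'⟩, trivial⟩
  · intro x' _
    obtain ⟨x, hx, e⟩ := pr_surj c x'
    exact ⟨x, ⟨hx, e⟩, trivial⟩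

end

end Pool.Agent.Helper41.Full
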